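import Pool.Agent.N993.WT.Stm

/-!
# Words with repeated subwords are rare
-/

set_option autoImplicit false

namespace Pool.Agent.N42.WT

open Pool.Agent.N993.WT

/-- letters -/
abbrev Lt (n : ℕ) : Type := Fin n × Bool

lemma fl_fl {X : Type} (y : X × Bool) : flip (flip y) = y := by
  rcases y with ⟨x, b⟩
  simp [Pool.Agent.N993.WT.flip]

lemma fl_ne {X : Type} (y : X × Bool) : flip y ≠ y := by
  rcases y with ⟨x, b⟩
  intro h
  have h1 := congrArg Prod.snd h
  cases b <;> simp [Pool.Agent.N993.WT.flip] at h1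

lemma swap2 {n : ℕ} (a b x : Lt n) : Equiv.swap a b (Equiv.swap a b x) = x :=
  (Equiv.swap a b).symm_apply_apply x

section Codes

variable {n : ℕ} (z₀ : Lt n)

/-- the code of a word -/
def cd (w : ℕ → Lt n) : ℕ → Lt n
  | 0 => w 0
  | i + 1 => Equiv.swap (flip (w i)) z₀ (w (i + 1))

/-- the word with a given code -/
def dc (κ : ℕ → Lt n) : ℕ → Lt n
  | 0 => κ 0
  | i + 1 => Equiv.swap (flip (dc κ i)) z₀ (κ (i + 1))

/-- the code with the letters at the places `q, …, q + μ - 1` replaced -/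
def kp {μ : ℕ} (w : ℕ → Lt n) (x : Fin μ → {z : Lt n // z ≠ z₀}) (q i : ℕ) : Lt n :=
  if h : q ≤ i ∧ i < q + μ then (x ⟨i - q, by omega⟩).1 else cd z₀ w i

/-- the letters of a word -/
def ex {ℓ : ℕ} (y₀ : Lt n) (w : RW n ℓ) (i : ℕ) : Lt n := if h : i < ℓ then w.1 ⟨i, h⟩ else y₀

lemma ex_red {ℓ : ℕ} (y₀ : Lt n) (w : RW n ℓ) {i : ℕ} (hi : i + 1 < ℓ) :
    ex y₀ w (i + 1) ≠ flip (ex y₀ w i) := by
  rw [ex, ex, dif_pos hi, dif_pos (by omega)]
  exact w.2 ⟨i, by omega⟩ ⟨i + 1, hi⟩ rfl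

lemma cd_ne {ℓ : ℕ} (y₀ : Lt n) (w : RW n ℓ) {i : ℕ} (hi : i + 1 < ℓ) :
    cd z₀ (ex y₀ w) (i + 1) ≠ z₀ := by
  intro h
  rw [cd] at h
  apply ex_red y₀ w hi
  have h1 := congrArg (Equiv.swap (flip (ex y₀ w i)) z₀) h
  rw [swap2, Equiv.swap_apply_right] at h1
  exact h1

/-- the word with the code replaced -/
def rc {ℓ μ : ℕ} (y₀ : Lt n) (w : RW n ℓ) (x : Fin μ → {z : Lt n // z ≠ z₀}) (q : ℕ) :
    RW n ℓ :=
  ⟨fun i => dc z₀ (kp z₀ (ex y₀ w) x q) i, by
    rintro ⟨i, hi⟩ ⟨j, hj⟩ hij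
    have hij' : j = i + 1 := hij
    subst hij'
    intro h
    have h2 : Equiv.swap (flip (dc z₀ (kp z₀ (ex y₀ w) x q) i)) z₀
        (kp z₀ (ex y₀ w) x q (i + 1)) = flip (dc z₀ (kp z₀ (ex y₀ w) x q) i) := h
    have h3 := congrArg (Equiv.swap (flip (dc z₀ (kp z₀ (ex y₀ w) x q) i)) z₀) h2
    rw [swap2, Equiv.swap_apply_left] at h3
    rw [kp] at h3
    by_cases hq : q ≤ i + 1 ∧ i + 1 < q + μ
    · rw [dif_pos hq] at h3
      exact (x _).2 h3
    · rw [dif_neg hq] at h3
      exact cd_ne z₀ y₀ w hj h3⟩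

lemma dc_inj {κ κ' : ℕ → Lt n} {ℓ : ℕ} (h : ∀ i < ℓ, dc z₀ κ i = dc z₀ κ' i) :
    ∀ i < ℓ, κ i = κ' i := by
  intro i hi
  cases i with
  | zero => exact h 0 hi
  | succ i =>
    have h1 := h (i + 1) hi
    rw [dc, dc, h i (by omega)] at h1
    exact (Equiv.swap _ _).injective h1

lemma words_eq {ℓ q μ : ℕ} {w w' : ℕ → Lt n}
    (h : ∀ i < ℓ, ¬ (q ≤ i ∧ i < q + μ) → cd z₀ w i = cd z₀ w' i)
    (hd : ∀ k < μ, (∀ i < q + k, w i = w' i) → w (q + k) = w' (q + k)) :
    ∀ i < ℓ, w i = w' i := by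
  intro i
  induction i using Nat.strong_induction_on with
  | _ i ih =>
    intro hi
    by_cases hq : q ≤ i ∧ i < q + μ
    · obtain ⟨k, rfl⟩ := Nat.exists_eq_add_of_le hq.1
      exact hd k (by omega) fun j hj => ih j hj (by omega)
    · have h1 := h i hi hq
      cases i with
      | zero => exact h1
      | succ i =>
        rw [cd, cd, ih i (by omega) (by omega)] at h1
        exact (Equiv.swap _ _).injective h1

end Codes

section Count

variable {n m : ℕ} {c : Fin m → ℕ}

/-- places of words -/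
abbrev Tp (c : Fin m → ℕ) : Type := (j : Fin m) × Fin (c j)

variable {ℓ : Tp c → ℕ} (y : Tp c → Lt n)

/-- the letter at the place `q + k` of the word `t₀` is determined by the other words and the
preceding letters -/
def Det (μ : ℕ) (P : (∀ t, RW n (ℓ t)) → Prop) (t₀ : Tp c) (q : ℕ) : Prop :=
  ∀ g g', P g → P g' → (∀ t, t ≠ t₀ → g t = g' t) → ∀ k < μ,
    (∀ i < q + k, ex (y t₀) (g t₀) i = ex (y t₀) (g' t₀) i) →
      ex (y t₀) (g t₀) (q + k) = ex (y t₀) (g' t₀) (q + k)

instance finRW (n ℓ : ℕ) : Finite (RW n ℓ) := by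
  unfold RW
  infer_instance

lemma card_ne (z₀ : Lt n) : Nat.card {z : Lt n // z ≠ z₀} = 2 * n - 1 := by
  rw [Nat.card_eq_fintype_card, Fintype.card_subtype_compl, Fintype.card_prod, Fintype.card_fin,
    Fintype.card_bool, Fintype.card_subtype_eq, mul_comm]

/-- **The counting lemma.** -/
lemma count (hn : 0 < n) {μ : ℕ} {P : (∀ t, RW n (ℓ t)) → Prop} {t₀ : Tp c} {q : ℕ}
    (hq : q + μ ≤ ℓ t₀) (hD : Det y μ P t₀ q) :
    Nat.card {g // P g} * (2 * n - 1) ^ μ ≤ Nat.card (∀ t, RW n (ℓ t)) := by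
  classical
  let z₀ : Lt n := (⟨0, hn⟩, true)
  let F : {g // P g} × (Fin μ → {z : Lt n // z ≠ z₀}) → ∀ t, RW n (ℓ t) := fun gx =>
    Function.update gx.1.1 t₀ (rc z₀ (y t₀) (gx.1.1 t₀) gx.2 q)
  have hF : Function.Injective F := by
    rintro ⟨⟨g, hg⟩, x⟩ ⟨⟨g', hg'⟩, x'⟩ h
    have h1 : ∀ t, t ≠ t₀ → g t = g' t := by
      intro t ht
      have h2 := congrFun h t
      simp only [F, Function.update_of_ne ht] at h2
      exact h2
    have h2 : rc z₀ (y t₀) (g t₀) x q = rc z₀ (y t₀) (g' t₀) x' q := by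
      have h3 := congrFun h t₀
      simp only [F, Function.update_self] at h3
      exact h3
    have h3 : ∀ i < ℓ t₀, kp z₀ (ex (y t₀) (g t₀)) x q i = kp z₀ (ex (y t₀) (g' t₀)) x' q i := by
      apply dc_inj z₀
      intro i hi
      exact congrFun (congrArg Subtype.val h2) ⟨i, hi⟩
    have h4 : x = x' := by
      funext k
      have h5 := h3 (q + k) (by omega)
      rw [kp, kp, dif_pos (by omega), dif_pos (by omega)] at h5
      have h6 : (⟨q + (k : ℕ) - q, by omega⟩ : Fin μ) = k := Fin.ext (by simp)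
      rw [h6] at h5
      exact Subtype.ext h5
    have h5 : ∀ i < ℓ t₀, ex (y t₀) (g t₀) i = ex (y t₀) (g' t₀) i := by
      apply words_eq z₀ (q := q) (μ := μ)
      · intro i hi hni
        have h6 := h3 i hi
        rwa [kp, kp, dif_neg hni, dif_neg hni] at h6
      · exact hD g g' hg hg' h1
    have h6 : g t₀ = g' t₀ := by
      apply Subtype.ext
      funext i
      have h7 := h5 i i.2
      rw [ex, ex, dif_pos i.2, dif_pos i.2] at h7
      exact h7
    have h7 : g = g' := by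
      funext t
      by_cases ht : t = t₀
      · rw [ht, h6]
      · exact h1 t ht
    subst h7
    rw [h4]
  have h1 := Nat.card_le_card_of_injective F hF
  rw [Nat.card_prod, Nat.card_fun, card_ne, Nat.card_eq_fintype_card (α := Fin μ),
    Fintype.card_fin] at h1
  exact h1

end Count

section Events

variable {n m : ℕ} {c : Fin m → ℕ} {ℓ : Tp c → ℕ} (y : Tp c → Lt n) (μ : ℕ)

/-- the two kinds of events -/
def Ev (z : Bool × ((t : Tp c) × Fin (ℓ t)) × ((t : Tp c) × Fin (ℓ t)))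
    (g : ∀ t, RW n (ℓ t)) : Prop :=
  z.2.1.2 + μ ≤ ℓ z.2.1.1 ∧ z.2.2.2 + μ ≤ ℓ z.2.2.1 ∧
    if z.1 then z.2.1 ≠ z.2.2 ∧ ∀ k < μ, ex (y z.2.1.1) (g z.2.1.1) (z.2.1.2 + k) =
      ex (y z.2.2.1) (g z.2.2.1) (z.2.2.2 + k)
    else ∀ k < μ, ex (y z.2.1.1) (g z.2.1.1) (z.2.1.2 + k) =
      flip (ex (y z.2.2.1) (g z.2.2.1) (z.2.2.2 + (μ - 1 - k)))

/-- antiparallel subwords of one word -/
lemma anti {L : ℕ} {w : ℕ → Lt n} (hred : ∀ i, i + 1 < L → w (i + 1) ≠ flip (w i)) {p p' : ℕ}
    (hμ : 1 ≤ μ) (hp : p ≤ p') (hp' : p' < p + μ) (hL : p' + μ ≤ L)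
    (h : ∀ k < μ, w (p + k) = flip (w (p' + (μ - 1 - k)))) : False := by
  have h' : ∀ x, p ≤ x → x < p' + μ → w x = flip (w (p + p' + μ - 1 - x)) := by
    intro x hx1 hx2
    by_cases hx : x < p + μ
    · have h1 := h (x - p) (by omega)
      rw [show p + (x - p) = x by omega,
        show p' + (μ - 1 - (x - p)) = p + p' + μ - 1 - x by omega] at h1
      exact h1
    · have h1 := h (p' + μ - 1 - x) (by omega)
      rw [show p + (p' + μ - 1 - x) = p + p' + μ - 1 - x by omega,
        show p' + (μ - 1 - (p' + μ - 1 - x)) = x by omega] at h1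
      rw [h1, fl_fl]
  rcases Nat.even_or_odd' (p + p' + μ - 1) with ⟨x, hx | hx⟩
  · have h1 := h' x (by omega) (by omega)
    rw [show p + p' + μ - 1 - x = x by omega] at h1
    exact fl_ne _ h1.symm
  · have h1 := h' x (by omega) (by omega)
    rw [show p + p' + μ - 1 - x = x + 1 by omega] at h1
    apply hred x (by omega)
    rw [h1, fl_fl]

lemma ev_count (hn : 0 < n) (hμ : 1 ≤ μ)
    (z : Bool × ((t : Tp c) × Fin (ℓ t)) × ((t : Tp c) × Fin (ℓ t))) :
    Nat.card {g // Ev y μ z g} * (2 * n - 1) ^ μ ≤ Nat.card (∀ t, RW n (ℓ t)) := by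
  obtain ⟨e, ⟨t, ⟨p, hp⟩⟩, ⟨t', ⟨p', hp'⟩⟩⟩ := z
  by_cases hb : p + μ ≤ ℓ t ∧ p' + μ ≤ ℓ t'
  swap
  · have h1 : IsEmpty {g // Ev y μ (e, ⟨t, ⟨p, hp⟩⟩, ⟨t', ⟨p', hp'⟩⟩) g} :=
      ⟨fun g => hb ⟨g.2.1, g.2.2.1⟩⟩
    rw [Nat.card_of_isEmpty, zero_mul]
    exact Nat.zero_le _
  obtain ⟨hb1, hb2⟩ := hb
  by_cases htt : t = t'
  · subst htt
    cases e with
    | true =>
      rcases lt_trichotomy p p' with hlt | heq | hgt
      · refine count y hn (t₀ := t) (q := p') hb2 ?_
        intro g g' hg hg' _ k hk hi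
        have h1 := hg.2.2
        have h2 := hg'.2.2
        simp only [if_true] at h1 h2
        rw [← h1.2 k hk, ← h2.2 k hk]
        exact hi _ (by omega)
      · have h1 : IsEmpty {g // Ev y μ (true, ⟨t, ⟨p, hp⟩⟩, ⟨t, ⟨p', hp'⟩⟩) g} := by
          constructor
          rintro ⟨g, hg⟩
          have h2 := hg.2.2
          simp only [if_true] at h2
          apply h2.1
          subst heq
          rfl
        rw [Nat.card_of_isEmpty, zero_mul]
        exact Nat.zero_le _
      · refine count y hn (t₀ := t) (q := p) hb1 ?_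
        intro g g' hg hg' _ k hk hi
        have h1 := hg.2.2
        have h2 := hg'.2.2
        simp only [if_true] at h1 h2
        rw [h1.2 k hk, h2.2 k hk]
        exact hi _ (by omega)
    | false =>
      have hsym : ∀ g, Ev y μ (false, ⟨t, ⟨p, hp⟩⟩, ⟨t, ⟨p', hp'⟩⟩) g → ∀ k < μ,
          ex (y t) (g t) (p' + k) = flip (ex (y t) (g t) (p + (μ - 1 - k))) := by
        intro g hg k hk
        have h1 := hg.2.2
        simp only [Bool.false_eq_true, if_false] at h1
        have h2 := h1 (μ - 1 - k) (by omega)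
        rw [h2, fl_fl, show μ - 1 - (μ - 1 - k) = k by omega]
      rcases le_total p p' with hle | hle
      · by_cases hov : p' < p + μ
        · have h1 : IsEmpty {g // Ev y μ (false, ⟨t, ⟨p, hp⟩⟩, ⟨t, ⟨p', hp'⟩⟩) g} := by
            constructor
            rintro ⟨g, hg⟩
            have h2 := hg.2.2
            simp only [Bool.false_eq_true, if_false] at h2
            exact anti μ (L := ℓ t) (w := ex (y t) (g t)) (fun i hi => ex_red _ _ hi) hμ hle hov
              hb2 h2
          rw [Nat.card_of_isEmpty, zero_mul]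
          exact Nat.zero_le _
        · refine count y hn (t₀ := t) (q := p') hb2 ?_
          intro g g' hg hg' _ k hk hi
          rw [hsym g hg k hk, hsym g' hg' k hk, hi _ (by omega)]
      · by_cases hov : p < p' + μ
        · have h1 : IsEmpty {g // Ev y μ (false, ⟨t, ⟨p, hp⟩⟩, ⟨t, ⟨p', hp'⟩⟩) g} := by
            constructor
            rintro ⟨g, hg⟩
            exact anti μ (L := ℓ t) (w := ex (y t) (g t)) (fun i hi => ex_red _ _ hi) hμ hle hov
              hb1 (hsym g hg)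
          rw [Nat.card_of_isEmpty, zero_mul]
          exact Nat.zero_le _
        · refine count y hn (t₀ := t) (q := p) hb1 ?_
          intro g g' hg hg' _ k hk hi
          have h1 := hg.2.2
          have h2 := hg'.2.2
          simp only [Bool.false_eq_true, if_false] at h1 h2
          rw [h1 k hk, h2 k hk, hi _ (by omega)]
  · refine count y hn (t₀ := t) (q := p) hb1 ?_
    intro g g' hg hg' hoth k hk _
    have h3 : g t' = g' t' := hoth t' (Ne.symm htt)
    have h1 := hg.2.2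
    have h2 := hg'.2.2
    cases e with
    | true =>
      simp only [if_true] at h1 h2
      rw [h1.2 k hk, h2.2 k hk, h3]
    | false =>
      simp only [Bool.false_eq_true, if_false] at h1 h2
      rw [h1 k hk, h2 k hk, h3]

end Events

/-- **Words with repetitions are rare.** -/
theorem t_cnt : S_CNT := by
  classical
  intro n m hn c hc b a ℓ μ hμ
  let y : Tp c → Lt n := fun t => b t.1
  have hex : ∀ g : (∀ t, RW n (ℓ t)), ¬ (dat hc b a g).PF μ → ∃ z, Ev y μ z g := by
    intro g hg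
    rw [Dat.PF] at hg
    push Not at hg
    obtain ⟨s, τ, i, s', τ', i', hi, hi', hne, heq⟩ := hg
    have hi1 : i + μ ≤ ℓ s := hi
    have hi2 : i' + μ ≤ ℓ s' := hi'
    have wt : ∀ (t : Tp c) (j : ℕ), (dat hc b a g).wd t true j = ex (y t) (g t) j :=
      fun t j => rfl
    have wf : ∀ (t : Tp c) (j : ℕ), (dat hc b a g).wd t false j =
        flip (ex (y t) (g t) (ℓ t - 1 - j)) := fun t j => rfl
    cases τ with
    | true =>
      cases τ' with
      | true =>
        refine ⟨(true, ⟨s, ⟨i, by omega⟩⟩, ⟨s', ⟨i', by omega⟩⟩), hi1, hi2, ?_⟩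
        simp only [if_true]
        refine ⟨?_, fun k hk => ?_⟩
        · intro h
          apply hne
          injection h with h1 h2
          subst h1
          have h3 := congrArg Fin.val (eq_of_heq h2)
          have h4 : i = i' := h3
          rw [h4]
        · have h1 := heq k hk
          rw [wt, wt] at h1
          exact h1
      | false =>
        refine ⟨(false, ⟨s, ⟨i, by omega⟩⟩, ⟨s', ⟨ℓ s' - μ - i', by omega⟩⟩), hi1,
          (by change ℓ s' - μ - i' + μ ≤ ℓ s'; omega), ?_⟩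
        simp only [Bool.false_eq_true, if_false]
        intro k hk
        have h1 := heq k hk
        rw [wt, wf] at h1
        rw [h1]
        congr 2
        omega
    | false =>
      cases τ' with
      | true =>
        refine ⟨(false, ⟨s', ⟨i', by omega⟩⟩, ⟨s, ⟨ℓ s - μ - i, by omega⟩⟩), hi2,
          (by change ℓ s - μ - i + μ ≤ ℓ s; omega), ?_⟩
        simp only [Bool.false_eq_true, if_false]
        intro k hk
        have h1 := heq k hk
        rw [wt, wf] at h1
        rw [← h1]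
        congr 2
        omega
      | false =>
        refine ⟨(true, ⟨s, ⟨ℓ s - μ - i, by omega⟩⟩, ⟨s', ⟨ℓ s' - μ - i', by omega⟩⟩),
          (by change ℓ s - μ - i + μ ≤ ℓ s; omega), (by change ℓ s' - μ - i' + μ ≤ ℓ s'; omega), ?_⟩
        simp only [if_true]
        refine ⟨?_, fun k hk => ?_⟩
        · intro h
          apply hne
          injection h with h1 h2
          subst h1
          have h3 := congrArg Fin.val (eq_of_heq h2)
          have h4 : ℓ s - μ - i = ℓ s - μ - i' := h3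
          have h5 : i = i' := by omega
          rw [h5]
        · have h1 := heq (μ - 1 - k) (by omega)
          rw [wf, wf] at h1
          have h2 := congrArg Pool.Agent.N993.WT.flip h1
          rw [fl_fl, fl_fl, show ℓ s - 1 - (i + (μ - 1 - k)) = ℓ s - μ - i + k by omega,
            show ℓ s' - 1 - (i' + (μ - 1 - k)) = ℓ s' - μ - i' + k by omega] at h2
          exact h2
  choose Z hZ using hex
  have h1 : Nat.card {g : ∀ t, RW n (ℓ t) // ¬ (dat hc b a g).PF μ} ≤
      Nat.card ((z : Bool × ((t : Tp c) × Fin (ℓ t)) × ((t : Tp c) × Fin (ℓ t))) ×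
        {g // Ev y μ z g}) := by
    refine Nat.card_le_card_of_injective (fun g => ⟨Z g.1 g.2, ⟨g.1, hZ g.1 g.2⟩⟩) ?_
    intro g g' h
    apply Subtype.ext
    have h2 := congrArg (fun s : ((z : Bool × ((t : Tp c) × Fin (ℓ t)) ×
      ((t : Tp c) × Fin (ℓ t))) × {g // Ev y μ z g}) => s.2.1) h
    exact h2
  rw [Nat.card_sigma] at h1
  have h2 : Nat.card {g : ∀ t, RW n (ℓ t) // ¬ (dat hc b a g).PF μ} * (2 * n - 1) ^ μ ≤
      2 * (∑ t, ℓ t) ^ 2 * Nat.card (∀ t, RW n (ℓ t)) := by
    refine (Nat.mul_le_mul_right _ h1).trans ?_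
    rw [Finset.sum_mul]
    refine (Finset.sum_le_card_nsmul _ _ _
      fun z _ => ev_count y μ (by omega) hμ z).trans (le_of_eq ?_)
    rw [Finset.card_univ, smul_eq_mul, Fintype.card_prod, Fintype.card_prod, Fintype.card_bool,
      Fintype.card_sigma]
    simp only [Fintype.card_fin]
    ring
  have h3 : ((2 * n - 1 : ℕ) : ℝ) = 2 * (n : ℝ) - 1 := by
    rw [Nat.cast_sub (by omega)]
    push_cast
    ring
  rw [← h3]
  exact_mod_cast h2

end Pool.Agent.N42.WT
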